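import Pool.Agent.Lib_helper34.MET.R8x
import Pool.Agent.Lib_helper24.MET.SIM

/-! # Block R8a: from an isomorphism of modules to a similarity (Schanuel twice) -/

set_option autoImplicit false

namespace Pool.Agent.MET

theorem r8a_simOf {k b b' : ℕ} {R R' : List Rel} : simOf ((k, b, R), (k, b', R')) =
    (k, (b + b') + (R.length + b' + R'.length + b), fit b b' R, fit b' b R') := if_pos rfl

/-- R8a -/
theorem r8a (p : MCode × MCode) (h : p.1.1 = p.2.1) (hs : SemiIso p) : Sim (simOf p) := by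
  obtain ⟨⟨k, b, R⟩, ⟨k', b', R'⟩⟩ := p
  change k = k' at h
  subst h
  obtain ⟨σ, φ, hφ⟩ := hs
  change (Fin k → ℤ) ≃+ (Fin k → ℤ) at σ
  change PM k b R ≃+ PM k b' R' at φ
  change ∀ (v : Fin k → ℤ) (m : PM k b R), φ ((xp v : L k) • m) = (xp (σ v) : L k) • φ m at hφ
  -- the first application of the lemma of Schanuel
  obtain ⟨E1, hE1, hE1'⟩ := schanuel (k := k) (b := b) (b' := b') σ
    (Submodule.mkQ (Submodule.span (L k) {m : Fin b → L k | ∃ r ∈ R, m = rl k b r}))
    (Submodule.mkQ (Submodule.span (L k) {m : Fin b' → L k | ∃ r ∈ R', m = rl k b' r})) φ hφ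
    (fun x => ⟨fun _ => Submodule.mkQ_surjective _ _, fun _ => Submodule.mkQ_surjective _ _⟩)
  have hq : ∀ m, r8q k b' b R' (E1 m) = φ (r8q k b b' R m) := hE1'
  -- the second application
  obtain ⟨E2, hE2, hE2'⟩ := schanuel (k := k) (b := R.length + b') (b' := R'.length + b) σ
    (r8pi k b b' R) (r8pi k b' b R') E1 hE1 (fun x => by
      rw [r8_exact, r8_exact, hq, map_eq_zero_iff φ φ.injective])
  -- the similarity
  rw [r8a_simOf, sim_iff]
  show ∃ (σ : (Fin k → ℤ) ≃+ (Fin k → ℤ))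
    (Φ : (Fin ((b + b') + (R.length + b' + R'.length + b)) → L k) ≃+
      (Fin ((b + b') + (R.length + b' + R'.length + b)) → L k)),
      (∀ (v : Fin k → ℤ) (x : Fin ((b + b') + (R.length + b' + R'.length + b)) → L k),
        Φ ((xp v : L k) • x) = (xp (σ v) : L k) • Φ x) ∧
      ∀ x : Fin ((b + b') + (R.length + b' + R'.length + b)) → L k,
        Φ ((mat k ((b + b') + (R.length + b' + R'.length + b)) (fit b b' R)).mulVec x) =
          (mat k ((b + b') + (R.length + b' + R'.length + b)) (fit b' b R')).mulVec (Φ x)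
  obtain ⟨M, hM⟩ : ∃ M, M = (b + b') + (R.length + b' + R'.length + b) := ⟨_, rfl⟩
  rw [← hM]
  obtain ⟨T, hT⟩ := r8_T k b b' (R'.length + b) M R (by omega)
  obtain ⟨T', hT'⟩ := r8_T k b' b (R.length + b') M R' (by omega)
  let Φ : (Fin M → L k) ≃+ (Fin M → L k) :=
    T.toAddEquiv.trans ((AddEquiv.prodCongr E1 E2).trans T'.toAddEquiv.symm)
  have hΦ : ∀ x, T' (Φ x) = (E1 (T x).1, E2 (T x).2) := fun x => T'.apply_symm_apply _
  refine ⟨σ, Φ, fun v x => ?_, fun x => ?_⟩
  · apply T'.injective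
    rw [hΦ, map_smul, map_smul, hΦ]
    exact Prod.ext (hE1 v _) (hE2 v _)
  · apply T'.injective
    rw [hΦ, hT, hT', hΦ]
    refine Prod.ext (hE2' _).symm ?_
    show E2 0 = 0
    rw [map_zero]

end Pool.Agent.MET
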