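import Pool.Agent.Lib_helper34.MET.R8x
import Pool.Agent.Lib_helper24.MET.SIM

/-! # Block R8b: from a similarity to an isomorphism of the torsion modules -/

set_option autoImplicit false

namespace Pool.Agent.MET

theorem r8b_simOf {k b b' : ℕ} {R R' : List Rel} : simOf ((k, b, R), (k, b', R')) =
    (k, (b + b') + (R.length + b' + R'.length + b), fit b b' R, fit b' b R') := if_pos rfl

/-- a semilinear map is semilinear for the whole ring -/
theorem r8b_semi {k : ℕ} (σ : (Fin k → ℤ) ≃+ (Fin k → ℤ)) {V V' : Type} [AddCommGroup V]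
    [Module (L k) V] [AddCommGroup V'] [Module (L k) V'] (Φ : V →+ V')
    (hΦ : ∀ (v : Fin k → ℤ) (x : V), Φ ((xp v : L k) • x) = (xp (σ v) : L k) • Φ x) (a : L k) (x : V) :
    Φ (a • x) = tw σ a • Φ x := by
  refine L_induction (motive := fun a => Φ (a • x) = tw σ a • Φ x) a ?_ ?_ ?_ ?_
  · rw [zero_smul, map_zero, map_zero, zero_smul]
  · intro a b ha hb
    rw [add_smul, map_add, ha, hb, map_add, add_smul]
  · intro a ha
    rw [neg_smul, map_neg, ha, map_neg, neg_smul]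
  · intro v
    rw [hΦ, tw_xp]

theorem r8b_tw {k : ℕ} (σ : (Fin k → ℤ) ≃+ (Fin k → ℤ)) (a : L k) : tw σ (tw σ.symm a) = a := by
  refine L_induction (motive := fun a => tw σ (tw σ.symm a) = a) a ?_ ?_ ?_ ?_
  · rw [map_zero, map_zero]
  · intro a b ha hb
    rw [map_add, map_add, ha, hb]
  · intro a ha
    rw [map_neg, map_neg, ha]
  · intro v
    rw [tw_xp, tw_xp, AddEquiv.apply_symm_apply]

theorem r8b_tw' {k : ℕ} (σ : (Fin k → ℤ) ≃+ (Fin k → ℤ)) (a : L k) : tw σ.symm (tw σ a) = a := by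
  have h := r8b_tw σ.symm a
  rwa [AddEquiv.symm_symm] at h

section

variable {k b b' d M : ℕ} {R : List Rel}
  (T : (Fin M → L k) ≃ₗ[L k]
      ((Fin b → L k) × (Fin b' → L k)) × ((Fin (R.length + b') → L k) × (Fin d → L k)))
  (hT : ∀ x, T ((mat k M (fit b b' R)).mulVec x) = (r8pi k b b' R (T x).2.1, 0))

include hT

theorem r8b_range (x : Fin M → L k) : (∃ y, (mat k M (fit b b' R)).mulVec y = x) ↔
    (T x).2 = 0 ∧ r8q k b b' R (T x).1 = 0 := by
  constructor
  · rintro ⟨y, rfl⟩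
    rw [hT]
    exact ⟨rfl, (r8_exact k b b' R _).1 ⟨_, rfl⟩⟩
  · rintro ⟨h1, h2⟩
    obtain ⟨y, hy⟩ := (r8_exact k b b' R _).2 h2
    refine ⟨T.symm (0, (y, 0)), T.injective ?_⟩
    rw [hT, LinearEquiv.apply_symm_apply]
    exact Prod.ext hy h1.symm

theorem r8b_tor (t : L k) (ht : t ≠ 0) (hk : ∀ m : PM k b R, t • m = 0) (x : Fin M → L k) :
    (∃ s : L k, s ≠ 0 ∧ ∃ y, (mat k M (fit b b' R)).mulVec y = s • x) ↔ (T x).2 = 0 := by
  constructor
  · rintro ⟨s, hs, h⟩
    have h1 := ((r8b_range T hT _).1 h).1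
    rw [map_smul] at h1
    have h2 : s • (T x).2 = 0 := h1
    refine Prod.ext ?_ ?_
    · funext i
      have h3 : s * (T x).2.1 i = 0 := congrFun (congrArg Prod.fst h2) i
      exact (mul_eq_zero.1 h3).resolve_left hs
    · funext i
      have h3 : s * (T x).2.2 i = 0 := congrFun (congrArg Prod.snd h2) i
      exact (mul_eq_zero.1 h3).resolve_left hs
  · intro h
    refine ⟨t, ht, (r8b_range T hT _).2 ⟨?_, ?_⟩⟩
    · rw [map_smul]
      show t • (T x).2 = 0
      rw [h, smul_zero]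
    · rw [map_smul]
      show r8q k b b' R (t • (T x).1) = 0
      rw [map_smul, hk]

end

theorem r8b_core {k b b' M : ℕ} {R R' : List Rel}
    (hM : M = (b + b') + (R.length + b' + R'.length + b))
    (t : L k) (ht : t ≠ 0) (hk : ∀ m : PM k b R, t • m = 0)
    (t' : L k) (ht' : t' ≠ 0) (hk' : ∀ m : PM k b' R', t' • m = 0)
    (σ : (Fin k → ℤ) ≃+ (Fin k → ℤ)) (Φ : (Fin M → L k) ≃+ (Fin M → L k))
    (hΦ : ∀ (v : Fin k → ℤ) (x : Fin M → L k), Φ ((xp v : L k) • x) = (xp (σ v) : L k) • Φ x)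
    (hAB : ∀ x : Fin M → L k, Φ ((mat k M (fit b b' R)).mulVec x) = (mat k M (fit b' b R')).mulVec (Φ x)) :
    SemiIso ((k, b, R), (k, b', R')) := by
  obtain ⟨T, hT⟩ := r8_T k b b' (R'.length + b) M R (by omega)
  obtain ⟨T', hT'⟩ := r8_T k b' b (R.length + b') M R' (by omega)
  have hs : ∀ (a : L k) x, Φ (a • x) = tw σ a • Φ x := fun a x =>
    r8b_semi σ Φ.toAddMonoidHom hΦ a x
  have htw : ∀ a : L k, a ≠ 0 → tw σ a ≠ 0 := fun a ha h0 => ha (by
    rw [← r8b_tw' σ a, h0, map_zero])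
  -- ranges
  have hr : ∀ x, (∃ y, (mat k M (fit b b' R)).mulVec y = x) ↔
      ∃ y, (mat k M (fit b' b R')).mulVec y = Φ x := by
    intro x
    constructor
    · rintro ⟨y, rfl⟩
      exact ⟨Φ y, (hAB y).symm⟩
    · rintro ⟨y, hy⟩
      refine ⟨Φ.symm y, Φ.injective ?_⟩
      rw [hAB, AddEquiv.apply_symm_apply, hy]
  -- torsion
  have htor : ∀ x, (T x).2 = 0 ↔ (T' (Φ x)).2 = 0 := by
    intro x
    rw [← r8b_tor T hT t ht hk, ← r8b_tor T' hT' t' ht' hk']
    constructor
    · rintro ⟨s, hs0, h⟩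
      refine ⟨tw σ s, htw s hs0, ?_⟩
      rw [← hs]
      exact (hr _).1 h
    · rintro ⟨s, hs0, h⟩
      refine ⟨tw σ.symm s, fun h0 => hs0 (by rw [← r8b_tw σ s, h0, map_zero]), (hr _).2 ?_⟩
      rw [hs, r8b_tw]
      exact h
  -- the map
  let In : (Fin b → L k) → (Fin M → L k) := fun m => T.symm ((m, 0), 0)
  have hIn : ∀ m, T (In m) = ((m, 0), 0) := fun m => T.apply_symm_apply _
  let F : (Fin b → L k) →ₛₗ[tw σ] PM k b' R' :=
    { toFun := fun m => r8q k b' b R' (T' (Φ (In m))).1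
      map_add' := fun m n => by
        have h1 : In (m + n) = In m + In n := by
          apply T.injective
          rw [map_add, hIn, hIn, hIn]
          exact Prod.ext (Prod.ext rfl (add_zero _).symm) (add_zero _).symm
        rw [h1, map_add, map_add]
        exact map_add (r8q k b' b R') _ _
      map_smul' := fun a m => by
        have h1 : In (a • m) = a • In m := by
          apply T.injective
          rw [map_smul, hIn, hIn]
          exact Prod.ext (Prod.ext rfl (smul_zero _).symm) (smul_zero _).symm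
        rw [h1, hs, map_smul]
        exact map_smul (r8q k b' b R') _ _ }
  have hF : ∀ m, F m = r8q k b' b R' (T' (Φ (In m))).1 := fun m => rfl
  -- its kernel
  have hker : ∀ m, F m = 0 ↔ (Submodule.Quotient.mk m : PM k b R) = 0 := by
    intro m
    have h1 : (T (In m)).2 = 0 := by rw [hIn]
    have h2 := (htor _).1 h1
    have h3 := hr (In m)
    rw [r8b_range T hT, r8b_range T' hT'] at h3
    rw [hF]
    have h4 : r8q k b b' R (T (In m)).1 = (Submodule.Quotient.mk m : PM k b R) := by rw [hIn]; rfl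
    rw [← h4]
    exact ⟨fun h => (h3.2 ⟨h2, h⟩).2, fun h => (h3.1 ⟨h1, h⟩).2⟩
  -- it is onto
  have hsurj : ∀ n : PM k b' R', ∃ m, F m = n := by
    intro n
    obtain ⟨m', rfl⟩ := Submodule.Quotient.mk_surjective _ n
    obtain ⟨x, hx⟩ : ∃ x, x = Φ.symm (T'.symm ((m', 0), 0)) := ⟨_, rfl⟩
    have hx' : T' (Φ x) = ((m', 0), 0) := by
      rw [hx, AddEquiv.apply_symm_apply, LinearEquiv.apply_symm_apply]
    have h1 : (T x).2 = 0 := (htor x).2 (by rw [hx'])
    refine ⟨(T x).1.1, ?_⟩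
    have h2 : ∃ y, (mat k M (fit b b' R)).mulVec y = x - In (T x).1.1 := by
      rw [r8b_range T hT, map_sub, hIn]
      constructor
      · show (T x).2 - 0 = 0
        rw [h1, sub_zero]
      · show Submodule.Quotient.mk ((T x).1.1 - (T x).1.1) = (0 : PM k b R)
        rw [sub_self]
        rfl
    have h3 := (hr _).1 h2
    rw [r8b_range T' hT', map_sub, map_sub] at h3
    have h4 : r8q k b' b R' ((T' (Φ x)).1 - (T' (Φ (In (T x).1.1))).1) = 0 := h3.2
    rw [map_sub, sub_eq_zero] at h4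
    rw [hF, ← h4, hx']
    rfl
  -- the isomorphism
  have hle : Submodule.span (L k) {m : Fin b → L k | ∃ r ∈ R, m = rl k b r} ≤ LinearMap.ker F := by
    intro m hm
    rw [LinearMap.mem_ker, hker, Submodule.Quotient.mk_eq_zero]
    exact hm
  let G : PM k b R →ₛₗ[tw σ] PM k b' R' := Submodule.liftQ _ F hle
  have hG : ∀ m, G (Submodule.Quotient.mk m) = F m := fun m => rfl
  have hbij : Function.Bijective G.toAddMonoidHom := by
    constructor
    · rw [injective_iff_map_eq_zero]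
      intro m hm
      obtain ⟨m, rfl⟩ := Submodule.Quotient.mk_surjective _ m
      exact (hker m).1 hm
    · intro n
      obtain ⟨m, hm⟩ := hsurj n
      exact ⟨Submodule.Quotient.mk m, hm⟩
  refine ⟨σ, AddEquiv.ofBijective G.toAddMonoidHom hbij, fun v m => ?_⟩
  show G ((xp v : L k) • m) = (xp (σ v) : L k) • G m
  rw [LinearMap.map_smulₛₗ, tw_xp]

/-- R8b -/
theorem r8b (p : MCode × MCode) (t : L p.1.1) (ht : t ≠ 0) (hk : ∀ m : PM p.1.1 p.1.2.1 p.1.2.2, t • m = 0)
    (t' : L p.2.1) (ht' : t' ≠ 0) (hk' : ∀ m : PM p.2.1 p.2.2.1 p.2.2.2, t' • m = 0)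
    (hs : Sim (simOf p)) : SemiIso p := by
  obtain ⟨⟨k, b, R⟩, ⟨k', b', R'⟩⟩ := p
  by_cases h : k = k'
  · subst h
    change L k at t
    change L k at t'
    change ∀ m : PM k b R, t • m = 0 at hk
    change ∀ m : PM k b' R', t' • m = 0 at hk'
    rw [r8b_simOf, sim_iff] at hs
    obtain ⟨σ, Φ, hΦ, hAB⟩ := hs
    exact r8b_core rfl t ht hk t' ht' hk' σ Φ hΦ hAB
  · exfalso
    have h0 : simOf ((k, b, R), (k', b', R')) = (0, 2, [], [(0, 1, true, [])]) := if_neg h
    rw [h0, sim_iff] at hs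
    obtain ⟨σ, Φ, -, hAB⟩ := hs
    change (Fin 2 → L 0) ≃+ (Fin 2 → L 0) at Φ
    change ∀ x : Fin 2 → L 0, Φ ((mat 0 2 []).mulVec x) = (mat 0 2 [(0, 1, true, [])]).mulVec (Φ x) at hAB
    have h1 := hAB (Φ.symm (fun _ => 1))
    rw [AddEquiv.apply_symm_apply] at h1
    have h2 : (mat 0 2 []).mulVec (Φ.symm (fun _ => 1)) = 0 := by
      funext i
      rw [r8_mulVec]
      rfl
    rw [h2, map_zero] at h1
    have h3 := congrFun h1 0
    rw [r8_mulVec] at h3
    have h4 : (0 : L 0) = sg true • (xp (mon 0 []) * (1 : L 0)) + 0 := h3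
    rw [mon_nil, xp_zero, mul_one, add_zero] at h4
    have h5 : (0 : L 0) = (1 : ℤ) • (1 : L 0) := h4
    rw [one_smul] at h5
    exact zero_ne_one h5

end Pool.Agent.MET
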