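import Pool.Agent.Lib_helper53.MET.Base

/-! # Block R8c: the matrices of `simOf` have square zero -/

set_option autoImplicit false

namespace Pool.Agent.MET

theorem r8c_row {k m N : ℕ} {A : Ent} (h : ∀ e ∈ A, e.1 < N) (i j : Fin m) (hi : N ≤ (i : ℕ)) :
    mat k m A i j = 0 := by
  unfold mat
  apply List.sum_eq_zero
  intro x hx
  obtain ⟨e, he, rfl⟩ := List.mem_map.1 hx
  have := h e he
  rw [if_neg]
  rintro ⟨h1, -⟩
  omega

theorem r8c_col {k m N : ℕ} {A : Ent} (h : ∀ e ∈ A, N ≤ e.2.1) (i j : Fin m) (hj : (j : ℕ) < N) :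
    mat k m A i j = 0 := by
  unfold mat
  apply List.sum_eq_zero
  intro x hx
  obtain ⟨e, he, rfl⟩ := List.mem_map.1 hx
  have := h e he
  rw [if_neg]
  rintro ⟨-, h1⟩
  omega

theorem r8c_sq {k m N : ℕ} {A : Ent} (h : ∀ e ∈ A, e.1 < N ∧ N ≤ e.2.1) :
    mat k m A * mat k m A = 0 := by
  funext i j
  rw [Matrix.mul_apply]
  apply Finset.sum_eq_zero
  intro l _
  by_cases hl : (l : ℕ) < N
  · rw [r8c_col (fun e he => (h e he).2) i l hl, zero_mul]
  · rw [r8c_row (fun e he => (h e he).1) l j (not_lt.1 hl), mul_zero]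

theorem r8c_fit {b b' : ℕ} {R : List Rel} : ∀ e ∈ fit b b' R, e.1 < b + b' ∧ b + b' ≤ e.2.1 := by
  intro e he
  unfold fit at he
  rw [List.mem_append, List.mem_flatMap, List.mem_map] at he
  rcases he with ⟨s, -, he⟩ | ⟨i, hi, rfl⟩
  · rw [List.mem_flatMap] at he
    obtain ⟨t, -, he⟩ := he
    by_cases ht : t.1 < b
    · rw [if_pos ht, List.mem_singleton] at he
      subst he
      exact ⟨by show t.1 < b + b'; omega, by show b + b' ≤ b + b' + s; omega⟩
    · rw [if_neg ht] at he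
      exact absurd he List.not_mem_nil
  · rw [List.mem_range] at hi
    exact ⟨by show b + i < b + b'; omega, by show b + b' ≤ b + b' + R.length + i; omega⟩

/-- R8c -/
theorem r8c (p : MCode × MCode) :
    mat (simOf p).1 (simOf p).2.1 (simOf p).2.2.1 * mat (simOf p).1 (simOf p).2.1 (simOf p).2.2.1 = 0 ∧
    mat (simOf p).1 (simOf p).2.1 (simOf p).2.2.2 * mat (simOf p).1 (simOf p).2.1 (simOf p).2.2.2 = 0 := by
  unfold simOf
  split_ifs with h
  · exact ⟨r8c_sq r8c_fit, r8c_sq r8c_fit⟩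
  · refine ⟨r8c_sq (N := 1) ?_, r8c_sq (N := 1) ?_⟩
    · intro e he
      exact absurd he List.not_mem_nil
    · intro e he
      rw [List.mem_singleton] at he
      subst he
      exact ⟨Nat.zero_lt_one, le_refl _⟩

/-- R8k: `ℤ^k ≅ ℤ^k'` implies `k = k'` -/
theorem zk_inj {k k' : ℕ} (σ : (Fin k → ℤ) ≃+ (Fin k' → ℤ)) : k = k' :=
  eq_of_fin_equiv ℤ σ.toIntLinearEquiv

end Pool.Agent.MET
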