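import Pool.Agent.Lib_helper53.MET.Base

/-! # The matrix `fit b b' R` as a map -/

set_option autoImplicit false

namespace Pool.Agent.MET

/-- extension by zero -/
noncomputable def r8ext {k m : ℕ} (x : Fin m → L k) (j : ℕ) : L k := if h : j < m then x ⟨j, h⟩ else 0

theorem r8_mulVec (k m : ℕ) (A : Ent) (x : Fin m → L k) (i : Fin m) :
    (mat k m A).mulVec x i = (A.map fun e => if e.1 = (i : ℕ) then
      sg e.2.2.1 • (xp (mon k e.2.2.2) * r8ext x e.2.1) else 0).sum := by
  classical
  induction A with
  | nil => simp [Matrix.mulVec, dotProduct, mat]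
  | cons e A ih =>
    have h1 : mat k m (e :: A) = (Matrix.of fun i j : Fin m => if e.1 = (i : ℕ) ∧ e.2.1 = (j : ℕ) then
        sg e.2.2.1 • (xp (mon k e.2.2.2) : L k) else 0) + mat k m A := by
      funext i j
      rfl
    rw [h1, Matrix.add_mulVec, Pi.add_apply, ih, List.map_cons, List.sum_cons]
    congr 1
    simp only [Matrix.mulVec, dotProduct, Matrix.of_apply]
    by_cases h : e.1 = (i : ℕ)
    · rw [if_pos h]
      by_cases hj : e.2.1 < m
      · rw [Finset.sum_eq_single (⟨e.2.1, hj⟩ : Fin m)]
        · rw [if_pos ⟨h, rfl⟩, smul_mul_assoc, r8ext, dif_pos hj]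
        · intro j _ hne
          rw [if_neg, zero_mul]
          rintro ⟨-, h2⟩
          exact hne (Fin.ext h2.symm)
        · intro h2
          exact absurd (Finset.mem_univ _) h2
      · rw [r8ext, dif_neg hj, mul_zero, smul_zero]
        apply Finset.sum_eq_zero
        intro j _
        rw [if_neg, zero_mul]
        rintro ⟨-, h2⟩
        exact hj (h2 ▸ j.2)
    · rw [if_neg h]
      apply Finset.sum_eq_zero
      intro j _
      rw [if_neg (fun h2 => h h2.1), zero_mul]

theorem r8_flat {α β M : Type} [AddCommMonoid M] (l : List α) (f : α → List β) (g : β → M) :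
    ((l.flatMap f).map g).sum = (l.map fun a => ((f a).map g).sum).sum := by
  induction l with
  | nil => rfl
  | cons a l ih => rw [List.flatMap_cons, List.map_append, List.sum_append, ih, List.map_cons, List.sum_cons]

theorem r8_range {M : Type} [AddCommMonoid M] (n : ℕ) (f : ℕ → M) :
    ((List.range n).map f).sum = ∑ i : Fin n, f i := by
  rw [← Finset.sum_range f]
  rfl

/-- the combination of the relations -/
noncomputable def r8P (k b : ℕ) (R : List Rel) (y : ℕ → L k) : Fin b → L k :=
  ∑ s : Fin R.length, y s • rl k b (R.getD s [])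

theorem r8_rl (k b : ℕ) (r : Rel) (i : Fin b) :
    rl k b r i = (r.map fun t => if t.1 = (i : ℕ) then sg t.2.1 • (xp (mon k t.2.2) : L k) else 0).sum := by
  unfold rl
  induction r with
  | nil => rfl
  | cons t r ih => rw [List.map_cons, List.sum_cons, Pi.add_apply, ih, List.map_cons, List.sum_cons]; rfl

theorem r8_fit (k b b' M : ℕ) (R : List Rel) (x : Fin M → L k) (i : Fin M) :
    (mat k M (fit b b' R)).mulVec x i =
      if h : (i : ℕ) < b then r8P k b R (fun s => r8ext x (b + b' + s)) ⟨i, h⟩
      else if (i : ℕ) < b + b' then r8ext x (b + b' + R.length + (i - b)) else 0 := by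
  rw [r8_mulVec]
  unfold fit
  rw [List.map_append, List.sum_append, r8_flat, r8_range, List.map_map, r8_range]
  by_cases h : (i : ℕ) < b
  · rw [dif_pos h]
    have h2 : (∑ j : Fin b', ((fun e : ℕ × ℕ × Bool × Word => if e.1 = (i : ℕ) then
        sg e.2.2.1 • (xp (mon k e.2.2.2) * r8ext x e.2.1) else 0) ∘
        fun i : ℕ => (b + i, b + b' + R.length + i, true, ([] : Word))) (j : ℕ)) = 0 := by
      apply Finset.sum_eq_zero
      intro j _
      show (if b + (j : ℕ) = (i : ℕ) then _ else 0) = 0
      rw [if_neg (by omega)]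
    rw [h2, add_zero]
    unfold r8P
    rw [Finset.sum_apply]
    apply Finset.sum_congr rfl
    intro s _
    rw [r8_flat, Pi.smul_apply, r8_rl, smul_eq_mul, ← List.sum_map_mul_left]
    congr 1
    apply List.map_congr_left
    intro t _
    by_cases ht : t.1 < b
    · rw [if_pos ht, List.map_singleton, List.sum_singleton]
      by_cases hi : t.1 = (i : ℕ)
      · rw [if_pos hi, if_pos hi, mul_smul_comm, mul_comm]
      · rw [if_neg hi, if_neg hi, mul_zero]
    · rw [if_neg ht, List.map_nil, List.sum_nil, if_neg (fun hi : t.1 = (i : ℕ) => ht (hi ▸ h)), mul_zero]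
  · rw [dif_neg h]
    have h1 : (∑ s : Fin R.length, (((R.getD (s : ℕ) []).flatMap
        (fun t => if t.1 < b then [(t.1, b + b' + (s : ℕ), t.2.1, t.2.2)] else [])).map
        fun e : ℕ × ℕ × Bool × Word => if e.1 = (i : ℕ) then
        sg e.2.2.1 • (xp (mon k e.2.2.2) * r8ext x e.2.1) else 0).sum) = 0 := by
      apply Finset.sum_eq_zero
      intro s _
      apply List.sum_eq_zero
      intro z hz
      obtain ⟨e, he, rfl⟩ := List.mem_map.1 hz
      rw [List.mem_flatMap] at he
      obtain ⟨t, -, he⟩ := he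
      by_cases ht : t.1 < b
      · rw [if_pos ht, List.mem_singleton] at he
        subst he
        rw [if_neg]
        show ¬ t.1 = (i : ℕ)
        omega
      · rw [if_neg ht] at he
        exact absurd he List.not_mem_nil
    rw [h1, zero_add]
    by_cases hi : (i : ℕ) < b + b'
    · rw [if_pos hi, Finset.sum_eq_single (⟨(i : ℕ) - b, by omega⟩ : Fin b')]
      · show (if b + ((i : ℕ) - b) = (i : ℕ) then _ else 0) = _
        rw [if_pos (by omega)]
        show sg true • (xp (mon k []) * r8ext x (b + b' + R.length + ((i : ℕ) - b))) = _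
        rw [mon_nil, xp_zero, one_mul]
        exact one_smul ℤ _
      · intro j _ hj
        show (if b + (j : ℕ) = (i : ℕ) then _ else 0) = 0
        rw [if_neg]
        intro h2
        exact hj (Fin.ext (by show (j : ℕ) = (i : ℕ) - b; omega))
      · intro h2
        exact absurd (Finset.mem_univ _) h2
    · rw [if_neg hi]
      apply Finset.sum_eq_zero
      intro j _
      show (if b + (j : ℕ) = (i : ℕ) then _ else 0) = 0
      rw [if_neg]
      have := j.2
      omega

/-- the map `(P ⊕ 1)` -/
noncomputable def r8pi (k b b' : ℕ) (R : List Rel) :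
    (Fin (R.length + b') → L k) →ₗ[L k] (Fin b → L k) × (Fin b' → L k) where
  toFun y := (∑ s : Fin R.length, y (Fin.castAdd b' s) • rl k b (R.getD s []),
    fun i => y (Fin.natAdd R.length i))
  map_add' y z := by
    refine Prod.ext ?_ rfl
    show ∑ s : Fin R.length, (y (Fin.castAdd b' s) + z (Fin.castAdd b' s)) • rl k b (R.getD s []) = _
    simp only [add_smul, Finset.sum_add_distrib]
    rfl
  map_smul' a y := by
    refine Prod.ext ?_ rfl
    show ∑ s : Fin R.length, (a * y (Fin.castAdd b' s)) • rl k b (R.getD s []) = _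
    simp only [mul_smul, ← Finset.smul_sum]
    rfl

theorem r8_span (k b : ℕ) (R : List Rel) :
    {m : Fin b → L k | ∃ r ∈ R, m = rl k b r} = Set.range fun s : Fin R.length => rl k b (R.getD s []) := by
  ext m
  constructor
  · rintro ⟨r, hr, rfl⟩
    obtain ⟨n, hn, rfl⟩ := List.getElem_of_mem hr
    refine ⟨⟨n, hn⟩, ?_⟩
    show rl k b (R.getD n []) = _
    rw [List.getD_eq_getElem _ _ hn]
  · rintro ⟨s, rfl⟩
    refine ⟨R[(s : ℕ)], List.getElem_mem s.2, ?_⟩
    show rl k b (R.getD s []) = _
    rw [List.getD_eq_getElem _ _ s.2]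

/-- the quotient map -/
noncomputable def r8q (k b b' : ℕ) (R : List Rel) :
    (Fin b → L k) × (Fin b' → L k) →ₗ[L k] PM k b R :=
  (Submodule.mkQ _).comp (LinearMap.fst (L k) _ _)

theorem r8_exact (k b b' : ℕ) (R : List Rel) (x : (Fin b → L k) × (Fin b' → L k)) :
    (∃ y, r8pi k b b' R y = x) ↔ r8q k b b' R x = 0 := by
  show _ ↔ Submodule.Quotient.mk x.1 = 0
  rw [Submodule.Quotient.mk_eq_zero, r8_span, Submodule.mem_span_range_iff_exists_fun]
  constructor
  · rintro ⟨y, rfl⟩
    exact ⟨fun s => y (Fin.castAdd b' s), rfl⟩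
  · rintro ⟨c, hc⟩
    refine ⟨Fin.addCases c x.2, Prod.ext ?_ ?_⟩
    · rw [← hc]
      show ∑ s : Fin R.length, (Fin.addCases c x.2 (Fin.castAdd b' s) : L k) • rl k b (R.getD s []) = _
      simp only [Fin.addCases_left]
    · funext i
      show (Fin.addCases c x.2 (Fin.natAdd R.length i) : L k) = _
      rw [Fin.addCases_right]

/-- the coordinates -/
theorem r8_T (k b b' d M : ℕ) (R : List Rel) (hM : M = (b + b') + ((R.length + b') + d)) :
    ∃ T : (Fin M → L k) ≃ₗ[L k]
      ((Fin b → L k) × (Fin b' → L k)) × ((Fin (R.length + b') → L k) × (Fin d → L k)),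
      ∀ x, T ((mat k M (fit b b' R)).mulVec x) = (r8pi k b b' R (T x).2.1, 0) := by
  subst hM
  let T : (Fin ((b + b') + ((R.length + b') + d)) → L k) ≃ₗ[L k]
      ((Fin b → L k) × (Fin b' → L k)) × ((Fin (R.length + b') → L k) × (Fin d → L k)) :=
    { toFun := fun x => ((fun i => x (Fin.castAdd _ (Fin.castAdd _ i)),
          fun i => x (Fin.castAdd _ (Fin.natAdd _ i))),
        (fun i => x (Fin.natAdd _ (Fin.castAdd _ i)), fun i => x (Fin.natAdd _ (Fin.natAdd _ i))))
      invFun := fun y => Fin.addCases (Fin.addCases y.1.1 y.1.2) (Fin.addCases y.2.1 y.2.2)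
      map_add' := fun x y => rfl
      map_smul' := fun a x => rfl
      left_inv := fun x => by
        funext i
        induction i using Fin.addCases with
        | left i =>
          induction i using Fin.addCases with
          | left i => simp
          | right i => simp
        | right i =>
          induction i using Fin.addCases with
          | left i => simp
          | right i => simp
      right_inv := fun y => by
        refine Prod.ext (Prod.ext ?_ ?_) (Prod.ext ?_ ?_) <;> funext i <;> simp }
  refine ⟨T, fun x => ?_⟩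
  have hx : ∀ j (h : j < (b + b') + ((R.length + b') + d)), r8ext x j = x ⟨j, h⟩ := fun j h => dif_pos h
  refine Prod.ext (Prod.ext ?_ ?_) (Prod.ext ?_ ?_)
  · funext i
    show (mat k _ (fit b b' R)).mulVec x (Fin.castAdd _ (Fin.castAdd _ i)) = _
    rw [r8_fit, dif_pos (show ((Fin.castAdd _ (Fin.castAdd _ i) : Fin ((b + b') + ((R.length + b') + d))) : ℕ) < b from i.2)]
    unfold r8P
    show _ = (∑ s : Fin R.length, (T x).2.1 (Fin.castAdd b' s) • rl k b (R.getD s [])) i
    rw [Finset.sum_apply, Finset.sum_apply]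
    apply Finset.sum_congr rfl
    intro s _
    have h1 := s.2
    show (r8ext x (b + b' + (s : ℕ)) • rl k b (R.getD (s : ℕ) [])) _ = _
    rw [hx _ (by omega)]
    rfl
  · funext i
    show (mat k _ (fit b b' R)).mulVec x (Fin.castAdd _ (Fin.natAdd _ i)) = _
    have h1 := i.2
    have h2 : ((Fin.castAdd ((R.length + b') + d) (Fin.natAdd b i) : Fin ((b + b') + ((R.length + b') + d))) : ℕ) = b + i := rfl
    rw [r8_fit, dif_neg (by rw [h2]; omega), if_pos (by rw [h2]; omega), hx _ (by rw [h2]; omega)]
    show _ = x (Fin.natAdd _ (Fin.castAdd _ (Fin.natAdd _ i)))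
    congr 1
    apply Fin.ext
    show b + b' + R.length + (b + (i : ℕ) - b) = b + b' + (R.length + (i : ℕ))
    omega
  · funext i
    show (mat k _ (fit b b' R)).mulVec x (Fin.natAdd _ (Fin.castAdd _ i)) = 0
    have h2 : ((Fin.natAdd (b + b') (Fin.castAdd d i) : Fin ((b + b') + ((R.length + b') + d))) : ℕ) = b + b' + i := rfl
    rw [r8_fit, dif_neg (by rw [h2]; omega), if_neg (by rw [h2]; omega)]
  · funext i
    show (mat k _ (fit b b' R)).mulVec x (Fin.natAdd _ (Fin.natAdd _ i)) = 0
    have h2 : ((Fin.natAdd (b + b') (Fin.natAdd (R.length + b') i) : Fin ((b + b') + ((R.length + b') + d))) : ℕ) = b + b' + (R.length + b' + i) := rfl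
    rw [r8_fit, dif_neg (by rw [h2]; omega), if_neg (by rw [h2]; omega)]

end Pool.Agent.MET
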